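import Pool.Agent.MP_09973c_nt.H53.T6a

/-!
Elimination for four towers over a curve.
-/

set_option autoImplicit false

namespace Pool.Agent.MP_09973c_nt.H53

open Polynomial Finset IntermediateField Classical Pool.Agent.MP_09973c_nt.H58

theorem scaled_norm {p q J : ℕ} (hpq : p < q) {c μ : ℂ} {Ca M : ℝ} (hc : ‖c‖ ≤ Ca)
    (hμ : ‖μ‖ ≤ M) {z : ℕ → ℂ} (hz : ∀ i < J, z (i + 1) ^ q = μ ^ (q - p) * z i ^ p + μ ^ q * c)
    (h0 : ‖z 0‖ ≤ M) : ∀ i ≤ J, ‖z i‖ ≤ (2 + Ca) * M := fun i => by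
  have h1 := (norm_nonneg _).trans hc
  have hM := (norm_nonneg _).trans hμ
  induction i with
  | zero => exact fun _ => h0.trans (by nlinarith)
  | succ i ih =>
    intro hi
    refine le_of_pow_le_pow_left₀ (by omega : q ≠ 0) (by positivity) ?_
    rw [← norm_pow, hz i hi]
    obtain ⟨e, rfl⟩ := Nat.exists_eq_add_of_lt hpq
    have h4 : 1 ≤ (2 + Ca) ^ p := one_le_pow₀ (by linarith)
    have h5 : (2 + Ca) ^ (p + 1) ≤ (2 + Ca) ^ (p + e + 1) :=
      pow_le_pow_right₀ (by linarith) (by omega)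
    have h6 := ih (by omega)
    rw [show p + e + 1 - p = e + 1 by omega]
    calc _ ≤ M ^ (e + 1) * ((2 + Ca) * M) ^ p + M ^ (p + e + 1) * Ca := by
          refine (norm_add_le _ _).trans ?_
          rw [norm_mul, norm_mul, norm_pow, norm_pow, norm_pow]
          gcongr
      _ = M ^ (p + e + 1) * ((2 + Ca) ^ p + Ca) := by rw [mul_pow]; ring
      _ ≤ M ^ (p + e + 1) * (2 + Ca) ^ (p + e + 1) := by
          gcongr
          rw [pow_succ] at h5
          nlinarith
      _ = _ := by rw [mul_pow, mul_comm]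

theorem IntO_mono {Ω : Type} [Field Ω] [CharZero Ω] {S S' : Set Ω} (h : S ⊆ S') :
    IntO S ≤ IntO S' := fun _ hx =>
  IsIntegral.map_of_comp_eq (Subalgebra.inclusion (Algebra.adjoin_mono (R := ℚ) h)).toRingHom
    (RingHom.id Ω) rfl hx

theorem mem_IntO_of_int {Ω : Type} [Field Ω] [CharZero Ω] {S : Set Ω} {x : Ω}
    (hx : IsIntegral (Algebra.adjoin ℤ S) x) : x ∈ IntO S :=
  IsIntegral.map_of_comp_eq ((Algebra.adjoin ℤ S).val.toRingHom.codRestrict (Algebra.adjoin ℚ S)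
    fun y => (Algebra.adjoin_le (S := (Algebra.adjoin ℚ S).restrictScalars ℤ)
      Algebra.subset_adjoin) y.2) (RingHom.id Ω) rfl hx

theorem elim_one (hE : Elim1Stmt) {p q : ℕ} (hpq : p < q) {a b : Qb} {d : ℕ} {Ca : ℝ}
    (hd : 0 < d) (ha : Sz a d Ca) (hb : Sz b d Ca) : ∃ I₀ : ℕ,
    ∀ (Ω : Type) [Field Ω] [IsAlgClosed Ω] [CharZero Ω] [Algebra Qb Ω] (u v : Ω)
      (u' : IntO {u, v}), (u' : Ω) = u → Transcendental ℚ u →
      Algebra.IsAlgebraic (adjoin ℚ {u}) Ω → ∀ (R : ℤ[X][X]) (N : ℕ) (Λ : ℝ), R ≠ 0 →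
      R.natDegree ≤ N → 1 ≤ Λ →
      (∀ i, ∀ z : ℂ, ‖z‖ ≤ 1 → ‖(R.coeff i).eval₂ (Int.castRingHom ℂ) z‖ ≤ Λ) →
      ev2 (Int.castRingHom Ω) R u v = 0 → ∀ (J₀ J : ℕ) (W : Fin 4 → ℕ → IntO {u, v}),
      (∀ m, (W m 0 : Ω) ^ q = u ^ q ∨ (W m 0 : Ω) ^ q = v ^ q) →
      (∀ m, Fwd p q (cO _ (![a, b, a, b] m)) J (W m)) → ∀ (n : ℕ) (A : Fin n → Fin 4), n ≤ 4 →
      ∀ (c : (Fin n × Fin (J - J₀) → Fin q) → ℤ) (y : ℝ), 0 ≤ y →
      (∀ e, |(c e : ℝ)| ≤ Real.exp y) →
      ∑ e, (c e : IntO {u, v}) * mon (fun i => W (A i)) e ≠ 0 →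
      ∃ R₁ : ℤ[X], R₁ ≠ 0 ∧ (∀ i, |(R₁.coeff i : ℝ)| ≤ ((q : ℝ) ^ (4 * J) * Real.exp y *
          ((2 + Ca) * (d * (Λ ^ (N + 1) + 1))) ^ (4 * J * q)) ^ (I₀ * N * q ^ (4 * (J + 1)))) ∧
        ∀ ψ : IntO {u, v} →+* ℂ, ψ (∑ e, (c e : IntO {u, v}) * mon (fun i => W (A i)) e) = 0 →
          aeval (ψ u') R₁ = 0 := by
  refine ⟨(minpoly ℚ a).natDegree * (minpoly ℚ b).natDegree, ?_⟩
  intro Ω _ _ _ _ u v u' hu htr halg R N Λ hR hN hΛ hRΛ hR0 J₀ J W hV0 hW n A hn c y hy hc hne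
  have hq : 0 < q := by omega
  have hCa := ha.nonneg
  have hd' : (1 : ℝ) ≤ d := by exact_mod_cast hd
  have hS : ∀ m, Sz (![a, b, a, b] m) d Ca := fun m => by fin_cases m <;> assumption
  let V : Fin 4 → ℕ → Ω := fun m i => W m i
  have hV : ∀ m, Fwd p q (algebraMap Qb Ω (![a, b, a, b] m)) J (V m) := fun m =>
    (hW m).map (IntO {u, v}).subtype
  let f : ℤ[X] →+* Ω := eval₂RingHom (Int.castRingHom Ω) u
  have hf : ∀ g, f g = 0 → g = 0 := fun g hg => by
    by_contra h0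
    refine htr ⟨g.map (Int.castRingHom ℚ), (Polynomial.map_ne_zero_iff
      (f := Int.castRingHom ℚ) Int.cast_injective).2 h0, ?_⟩
    rw [aeval_def, eval₂_map, ← hg, RingHom.ext_int (RingHom.comp _ _) (Int.castRingHom Ω)]
    rfl
  have hfZ : ∀ g, f g ∈ Algebra.adjoin ℤ {u} := fun g => aeval_mem_adjoin_singleton ℤ u
  have hfix : ∀ (g : Ω ≃ₐ[ℚ] Ω), g u = u → ∀ r, g (f r) = f r := fun g hg r => by
    have := hom_eval₂ r (Int.castRingHom Ω) (g : Ω →+* Ω) u
    rw [RingHom.ext_int ((g : Ω →+* Ω).comp _) (Int.castRingHom Ω), RingHom.coe_coe, hg] at this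
    exact this
  have hR0' : eval₂ f v R = 0 := hR0
  have hNz := integralNormalization_eval₂_eq_zero f hR0' hf
  set lam := f R.leadingCoeff with hlam
  have hlam0 : lam ≠ 0 := fun h => hR (leadingCoeff_eq_zero.1 (hf _ h))
  have hm : ∀ x ∈ Algebra.adjoin ℤ {u}, IsIntegral (Algebra.adjoin ℤ {u}) x := fun x hx =>
    isIntegral_algebraMap (x := (⟨x, hx⟩ : Algebra.adjoin ℤ {u}))
  have iu : IsIntegral (Algebra.adjoin ℤ {u}) u := hm _ (Algebra.subset_adjoin rfl)
  have il : IsIntegral (Algebra.adjoin ℤ {u}) lam := hm _ (hfZ _)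
  have iw : IsIntegral (Algebra.adjoin ℤ {u}) (lam * v) :=
    ⟨(integralNormalization R).map (f.codRestrict _ hfZ), (monic_integralNormalization hR).map _,
      by rw [eval₂_map]; exact hNz⟩
  have hdi : IsIntegral (Algebra.adjoin ℤ {u}) (d : Ω) := isIntegral_natCast d
  have hstep : ∀ m, ∀ i < J, ((d : Ω) * lam * V m (i + 1)) ^ q = (d * lam) ^ (q - p) *
      (d * lam * V m i) ^ p + (d * lam) ^ q * algebraMap Qb Ω (![a, b, a, b] m) := fun m i hi => by
    obtain ⟨e, rfl⟩ := Nat.exists_eq_add_of_lt hpq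
    rw [mul_pow, ← hV m i hi, show p + e + 1 - p = e + 1 by omega]; ring
  have hint : ∀ m, ∀ i ≤ J, IsIntegral (Algebra.adjoin ℤ {u}) ((d : Ω) * lam * V m i) :=
    fun m i => by
    induction i with
    | zero =>
      refine fun _ => IsIntegral.of_pow hq ?_
      rcases hV0 m with h | h <;> rw [mul_pow, h, ← mul_pow]
      · exact ((hdi.mul il).mul iu).pow _
      · rw [mul_assoc]; exact (hdi.mul iw).pow _
    | succ i ih =>
      refine fun hi => IsIntegral.of_pow hq ?_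
      have h1 : IsIntegral (Algebra.adjoin ℤ {u}) (algebraMap Qb Ω (d * ![a, b, a, b] m)) :=
        ((hS m).1.map (algebraMap Qb Ω).toIntAlgHom).tower_top
      rw [map_mul, map_natCast] at h1
      rw [hstep m i hi]
      refine (((hdi.mul il).pow _).mul ((ih (by omega)).pow _)).add ?_
      obtain ⟨e, rfl⟩ := Nat.exists_eq_add_of_lt hq
      rw [show ((d : Ω) * lam) ^ (0 + e + 1) * algebraMap Qb Ω (![a, b, a, b] m) =
        (d * lam) ^ e * lam * (d * algebraMap Qb Ω (![a, b, a, b] m)) by ring]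
      exact (((hdi.mul il).pow _).mul il).mul h1
  have : ∀ m i, ∃ Y : IntO {u}, i ≤ J → (Y : Ω) = d * lam * V m i := fun m i => by
    by_cases h : i ≤ J
    · exact ⟨⟨_, mem_IntO_of_int (hint m i h)⟩, fun _ => rfl⟩
    · exact ⟨0, fun h' => absurd h' h⟩
  choose Y hY using this
  let u₁ : IntO {u} := ⟨u, subset_IntO _ rfl⟩
  let w₁ : IntO {u} := ⟨lam * v, mem_IntO_of_int iw⟩
  let f₁ : ℤ[X] →+* IntO {u} := eval₂RingHom (Int.castRingHom _) u₁
  have hf₁ : (IntO {u}).subtype.comp f₁ = f := ringHom_ext' (RingHom.ext_int _ _) (by simp [f, f₁, u₁])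
  have hf₂ : ∀ g, (f₁ g : Ω) = f g := fun g => congrArg (fun F : ℤ[X] →+* Ω => F g) hf₁
  let μ₁ : IntO {u} := d * f₁ R.leadingCoeff
  have hμ₁ : (μ₁ : Ω) = d * lam := by simp [μ₁, hf₂, hlam]
  have hlev : ∀ z : Fin n × Fin (J - J₀), J₀ + z.2 + 1 ≤ J := fun z => by have := z.2.2; omega
  have hdeg : ∀ e : Fin n × Fin (J - J₀) → Fin q, ∑ z, (e z : ℕ) ≤ 4 * J * q := fun e =>
    (mon_deg e).trans (by gcongr)
  let Φ : IntO {u} := ∑ e, (c e : IntO {u}) *
    (μ₁ ^ (4 * J * q - ∑ z, (e z : ℕ)) * mon (fun i => Y (A i)) e)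
  have hmon : ∀ e : Fin n × Fin (J - J₀) → Fin q, ((mon (fun i => Y (A i)) e : IntO {u}) : Ω) =
      ∏ z, (d * lam * V (A z.1) (J₀ + z.2 + 1)) ^ (e z : ℕ) := fun e => by
    rw [mon, SubmonoidClass.coe_finsetProd]
    exact prod_congr rfl fun z _ => by rw [SubmonoidClass.coe_pow, hY _ _ (hlev z)]
  have hΦ0 : (Φ : Ω) = ∑ e, (c e : Ω) * ((d * lam) ^ (4 * J * q - ∑ z, (e z : ℕ)) *
      ∏ z, (d * lam * V (A z.1) (J₀ + z.2 + 1)) ^ (e z : ℕ)) := by
    rw [AddSubmonoidClass.coe_finsetSum]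
    refine sum_congr rfl fun e _ => ?_
    rw [Subring.coe_mul, Subring.coe_mul, hmon, SubmonoidClass.coe_pow, hμ₁, Subring.coe_intCast]
  have hΦ : (Φ : Ω) = (d * lam) ^ (4 * J * q) *
      ((∑ e, (c e : IntO {u, v}) * mon (fun i => W (A i)) e : IntO {u, v}) : Ω) := by
    rw [hΦ0, AddSubmonoidClass.coe_finsetSum, mul_sum]
    refine sum_congr rfl fun e _ => ?_
    simp only [mul_pow _ (V _ _), prod_mul_distrib, prod_pow_eq_pow_sum]
    rw [← mul_assoc (_ ^ _), ← pow_add, Nat.sub_add_cancel (hdeg e), mul_left_comm]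
    simp [mon, V]
  -- the index
  let S₁ : Set Ω := insert (algebraMap Qb Ω b) (insert (algebraMap Qb Ω a) (insert v {u}))
  have step : ∀ (S : Set Ω) m, S₁ ⊆ S → (Fix ℚ (S ∪ lv (V m) J)).relIndex (Fix ℚ S) ≠ 0 ∧
      (Fix ℚ (S ∪ lv (V m) J)).relIndex (Fix ℚ S) ≤ q ^ (J + 1) := fun S m hS =>
    relIndex_chain hq (subset_adjoin _ _ (hS (by fin_cases m <;> simp [S₁]))) (hV m) (by
      rcases hV0 m with h | h <;> rw [h] <;>
        exact pow_mem (subset_adjoin _ _ (hS (by simp [S₁]))) _) J le_rfl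
  have sub : ∀ S S' : Set Ω, Fix ℚ (S ∪ S') ≤ Fix ℚ S := fun _ _ => Fix_anti Set.subset_union_left
  have i0 : (Fix ℚ (insert v {u})).relIndex (Fix ℚ {u}) ≠ 0 ∧
      (Fix ℚ (insert v {u})).relIndex (Fix ℚ {u}) ≤ N := by
    have h0 : R.map f ≠ 0 := (Polynomial.map_ne_zero_iff ((injective_iff_map_eq_zero f).2 hf)).2 hR
    have := relIndex_le_card (G₀ := Fix ℚ {u}) (S := Fix ℚ (insert v {u}))
      (fun g => g v) (R.map f).roots.toFinset
      (fun g hg => by
        rw [Multiset.mem_toFinset, mem_roots h0, IsRoot, eval_map]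
        have h1 := hom_eval₂ R f (g : Ω →+* Ω) v
        rw [hR0', map_zero, show (g : Ω →+* Ω).comp f = f from
          RingHom.ext (hfix g (mem_Fix.1 hg u rfl))] at h1
        exact h1.symm)
      (fun g hg g' hg' h => mem_Fix.2 (by
        rintro x (rfl | hx)
        · simp [← h]
        · exact mem_Fix.1 (mul_mem (inv_mem hg) hg') x hx))
    exact ⟨this.1, this.2.trans ((Multiset.toFinset_card_le _).trans
      ((card_roots' _).trans (natDegree_map_le.trans hN)))⟩
  have ins : ∀ (x : Ω) (S : Set Ω), Fix ℚ (insert x S) ≤ Fix ℚ S := fun _ _ =>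
    Fix_anti (Set.subset_insert _ _)
  have i0' := relIndex_trans (ins _ _) (ins _ _) (relIndex_const (insert v {u}) a) i0
  have i1 := relIndex_trans (ins _ _) ((ins _ _).trans (ins _ _))
    (relIndex_const (insert (algebraMap Qb Ω a) (insert v {u})) b) i0'
  have l1 : Fix ℚ S₁ ≤ Fix ℚ {u} := ((ins _ _).trans (ins _ _)).trans (ins _ _)
  have i2 := relIndex_trans (sub _ _) l1 (step S₁ 0 le_rfl) i1
  have i3 := relIndex_trans (sub _ _) ((sub _ _).trans l1) (step _ 1 Set.subset_union_left) i2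
  have i4 := relIndex_trans (sub _ _) (((sub _ _).trans (sub _ _)).trans l1)
    (step _ 2 (Set.subset_union_left.trans Set.subset_union_left)) i3
  have i5 := relIndex_trans (sub _ _) ((((sub _ _).trans (sub _ _)).trans (sub _ _)).trans l1)
    (step _ 3 ((Set.subset_union_left.trans Set.subset_union_left).trans Set.subset_union_left)) i4
  have hM1 : 1 ≤ Λ ^ (N + 1) := one_le_pow₀ hΛ
  have hM2 : Λ ≤ Λ ^ (N + 1) := le_self_pow₀ hΛ (by omega)
  have hB : 1 ≤ (2 + Ca) * (d * (Λ ^ (N + 1) + 1)) :=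
    one_le_mul_of_one_le_of_one_le (by linarith) (one_le_mul_of_one_le_of_one_le hd' (by linarith))
  obtain ⟨R₁, h1, h2, h3⟩ := hE Ω u u₁ Φ rfl htr halg (fun h => by
      have h1 := hΦ
      rw [h, ZeroMemClass.coe_zero, eq_comm, mul_eq_zero, ZeroMemClass.coe_eq_zero] at h1
      exact h1.elim (pow_ne_zero _ (mul_ne_zero (by exact_mod_cast hd.ne') hlam0)) hne)
    (by
      rw [hΦ0]
      exact IsIntegral.sum _ fun e _ => (isIntegral_intCast _).mul (((hdi.mul il).pow _).mul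
        (IsIntegral.prod _ fun z _ => (hint _ _ (hlev z)).pow _)))
    _ ((minpoly ℚ a).natDegree * (minpoly ℚ b).natDegree * N * q ^ (4 * (J + 1)))
    ((q : ℝ) ^ (4 * J) * Real.exp y * ((2 + Ca) * (d * (Λ ^ (N + 1) + 1))) ^ (4 * J * q)) i5.1
    (i5.2.trans (le_of_eq (by ring))) (fun g hg => by
      have h1 : ∀ m, ∀ i ≤ J, g (V m i) = V m i := fun m i hi => mem_Fix.1 hg _ (by
        have := H65.mem_lv (V m) hi
        fin_cases m
        exacts [Or.inl (Or.inl (Or.inl (Or.inr this))), Or.inl (Or.inl (Or.inr this)),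
          Or.inl (Or.inr this), Or.inr this])
      have h2 : g lam = lam := hfix g (mem_Fix.1 hg u (by simp [S₁])) _
      rw [hΦ0]
      simp [h2, h1 _ _ (hlev _)])
    (one_le_mul_of_one_le_of_one_le (one_le_mul_of_one_le_of_one_le
      (one_le_pow₀ (by exact_mod_cast hq)) (Real.one_le_exp hy)) (one_le_pow₀ hB))
    (fun ψ hψ => by
      have hψf : ∀ g, ψ (f₁ g) = g.eval₂ (Int.castRingHom ℂ) (ψ u₁) := fun g => by
        rw [← RingHom.ext_int (ψ.comp (Int.castRingHom _)) (Int.castRingHom ℂ)]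
        exact hom_eval₂ _ _ _ _
      have hb : ∀ i, ‖ψ (f₁ (R.coeff i))‖ ≤ Λ := fun i => hψf _ ▸ hRΛ i _ hψ
      have hbl : ‖ψ (f₁ R.leadingCoeff)‖ ≤ Λ := hb _
      have hw : ‖ψ w₁‖ ≤ Λ ^ (N + 1) + 1 := by
        have hmon := (monic_integralNormalization hR).map (ψ.comp f₁)
        refine (root_lt _ hmon.ne_zero (by rw [hmon.leadingCoeff, norm_one]) (by linarith)
          (fun i => ?_) ?_).le
        · rw [coeff_map, integralNormalization_coeff]
          split_ifs
          · rwa [map_one, norm_one]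
          · rw [map_mul, map_pow, norm_mul, norm_pow]
            refine le_trans ?_ (pow_le_pow_right₀ hΛ
              (show R.natDegree - 1 - i + 1 ≤ N + 1 by omega))
            rw [pow_succ']
            exact mul_le_mul (hb i) (pow_le_pow_left₀ (norm_nonneg _) hbl _) (by positivity)
              (by linarith)
        · rw [eval_map, ← hom_eval₂, show eval₂ f₁ w₁ (integralNormalization R) = 0 from
            Subtype.ext ?_, map_zero]
          have := hom_eval₂ (integralNormalization R) f₁ (IntO {u}).subtype w₁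
          rw [hf₁] at this
          exact this.trans hNz
      have hμ : ‖ψ μ₁‖ ≤ d * (Λ ^ (N + 1) + 1) := by
        rw [map_mul, norm_mul, map_natCast, Complex.norm_natCast]
        gcongr; linarith
      have hn' : ∀ m, ∀ i ≤ J, ‖ψ (Y m i)‖ ≤ (2 + Ca) * (d * (Λ ^ (N + 1) + 1)) := fun m =>
        scaled_norm hpq (hom_norm_le (ψ.comp (cO _)) (hS m)) hμ (z := fun i => ψ (Y m i))
          (fun i hi => by
            have : Y m (i + 1) ^ q = μ₁ ^ (q - p) * Y m i ^ p + μ₁ ^ q * cO _ (![a, b, a, b] m) :=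
              Subtype.ext (by
                push_cast
                rw [hY m _ hi, hY m _ hi.le, hμ₁, hstep m i hi, cO_coe])
            simpa using congrArg ψ this) (by
          refine le_of_pow_le_pow_left₀ hq.ne' (by positivity) ?_
          rw [← norm_pow, ← map_pow]
          rcases hV0 m with h | h
          · have : Y m 0 ^ q = (μ₁ * u₁) ^ q := Subtype.ext (by
              push_cast
              rw [hY m _ J.zero_le, hμ₁, mul_pow, h, ← mul_pow])
            rw [this, map_pow, norm_pow, map_mul, norm_mul]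
            exact pow_le_pow_left₀ (by positivity)
              ((mul_le_of_le_one_right (norm_nonneg _) hψ).trans hμ) _
          · have : Y m 0 ^ q = (d * w₁) ^ q := Subtype.ext (by
              push_cast
              rw [hY m _ J.zero_le, mul_pow, h, ← mul_pow, mul_assoc])
            rw [this, map_pow, norm_pow, map_mul, norm_mul, map_natCast, Complex.norm_natCast]
            gcongr)
      have h4 : ∀ e : Fin n × Fin (J - J₀) → Fin q, ‖ψ ((c e : IntO {u}) *
          (μ₁ ^ (4 * J * q - ∑ z, (e z : ℕ)) * mon (fun i => Y (A i)) e))‖ ≤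
          Real.exp y * ((2 + Ca) * (d * (Λ ^ (N + 1) + 1))) ^ (4 * J * q) := fun e => by
        rw [map_mul, norm_mul, map_intCast, Complex.norm_intCast, map_mul, norm_mul, map_pow,
          norm_pow, mon_map, mon, norm_prod]
        refine mul_le_mul (hc e) ?_ (by positivity) (by positivity)
        conv_rhs => rw [← Nat.sub_add_cancel (hdeg e), pow_add, ← prod_pow_eq_pow_sum]
        refine mul_le_mul (pow_le_pow_left₀ (norm_nonneg _) (hμ.trans ?_) _)
          (prod_le_prod (fun _ _ => norm_nonneg _) fun z _ => ?_) (by positivity) (by positivity)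
        · exact le_mul_of_one_le_left (by positivity) (by linarith)
        · rw [norm_pow]
          exact pow_le_pow_left₀ (norm_nonneg _) (hn' _ _ (hlev z)) _
      have h5 := (norm_sum_le _ _).trans (sum_le_card_nsmul univ _ _ fun e _ => h4 e)
      have h6 : ((univ : Finset (Fin n × Fin (J - J₀) → Fin q)).card : ℝ) ≤ (q : ℝ) ^ (4 * J) := by
        simp only [card_univ, Fintype.card_fun, Fintype.card_prod, Fintype.card_fin]
        exact_mod_cast Nat.pow_le_pow_right hq (Nat.mul_le_mul hn (by omega))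
      rw [map_sum, mul_assoc ((q : ℝ) ^ (4 * J))]
      rw [nsmul_eq_mul] at h5
      exact h5.trans (mul_le_mul_of_nonneg_right h6 (by positivity)))
  refine ⟨R₁, h1, h2, fun ψ h => ?_⟩
  let ι : IntO {u} →+* IntO {u, v} := Subring.inclusion (IntO_mono (by simp))
  have h4 : ι Φ = ι μ₁ ^ (4 * J * q) * ∑ e, (c e : IntO {u, v}) * mon (fun i => W (A i)) e :=
    Subtype.ext (by
      rw [Subring.coe_mul, SubmonoidClass.coe_pow, ← hμ₁.symm.trans (rfl : _ = (ι μ₁ : Ω)), ← hΦ]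
      rfl)
  have h5 := h3 (ψ.comp ι) (by rw [RingHom.comp_apply, h4, map_mul, h, mul_zero])
  rwa [RingHom.comp_apply, show ι u₁ = u' from Subtype.ext hu.symm] at h5

end Pool.Agent.MP_09973c_nt.H53
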