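import Pool.Agent.MP_09973c_nt.H58.T5

/-!
Numerical estimates.
-/

set_option autoImplicit false

namespace Pool.Agent.MP_09973c_nt.H53

open Polynomial Finset Classical Filter Pool.Agent.MP_09973c_nt.H58

theorem t6_params (K C' C₁ c : ℕ) : ∃ C : ℕ, ∀ L, ∃ l J : ℕ, L ≤ l ∧ (J + 2) ^ C' ≤ 2 ^ l ∧
    J = 6 * (K * (l + 1) ^ 3) + C₁ * (L + 1) ∧ c * (J + 1) ^ 2 ≤ (C * (L + 1)) ^ C := by
  obtain ⟨y₀, hy⟩ := eventually_atTop.1 (H71.poly_le_two_pow ((48 * K + C₁ + 2) ^ C') (3 * C'))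
  refine ⟨6 + c * ((48 * K + C₁ + 2) * (y₀ + 1) ^ 3) ^ 2,
    fun L => ⟨(y₀ + 1) * (L + 1), _, by nlinarith, ?_, rfl, ?_⟩⟩
  all_goals
    have h1 : L + 1 ≤ (y₀ + 1) * (L + 1) := by nlinarith
    have h2 : y₀ ≤ (y₀ + 1) * (L + 1) := by nlinarith
    have h3 : 6 * (K * ((y₀ + 1) * (L + 1) + 1) ^ 3) + C₁ * (L + 1) + 2 ≤
        (48 * K + C₁ + 2) * ((y₀ + 1) * (L + 1)) ^ 3 := by
      generalize (y₀ + 1) * (L + 1) = y at *
      have h4 : (y + 1) ^ 3 ≤ (2 * y) ^ 3 := Nat.pow_le_pow_left (by omega) 3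
      have h5 : y ≤ y ^ 3 := Nat.le_self_pow (by norm_num) y
      have h6 := Nat.mul_le_mul_left K h4
      have h7 := Nat.mul_le_mul_left C₁ (h1.trans h5)
      nlinarith
  · refine (Nat.pow_le_pow_left h3 _).trans (le_trans (le_of_eq ?_) (hy _ h2))
    rw [mul_pow, ← pow_mul]
  · set M := c * ((48 * K + C₁ + 2) * (y₀ + 1) ^ 3) ^ 2 with hM
    calc _ ≤ c * ((48 * K + C₁ + 2) * ((y₀ + 1) * (L + 1)) ^ 3) ^ 2 :=
          Nat.mul_le_mul_left _ (Nat.pow_le_pow_left (by omega) 2)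
      _ = M * (L + 1) ^ 6 := by rw [hM]; ring
      _ ≤ (6 + M) ^ (6 + M) * (L + 1) ^ (6 + M) :=
          Nat.mul_le_mul ((Nat.le_add_left _ _).trans (Nat.le_self_pow (by omega) _))
            (Nat.pow_le_pow_right (by omega) (by omega))
      _ = _ := (mul_pow _ _ _).symm

theorem t6_nat {q J I₀ C₁ c₁ l k : ℕ} (hl : l ≤ J)
    (hk : (I₀ + 12 * q + C₁ + c₁ + 8) * (J + 1) ^ 2 ≤ k) :
    (4 * J * q + 2 ^ (C₁ * J ^ 2) + 4 * J * q * (c₁ + 2 ^ (l + 1) * (2 ^ l + 1))) *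
      (I₀ * 2 ^ l * q ^ (4 * (J + 1))) + 1 ≤ 2 ^ k := by
  have h3 : J + 1 ≤ (J + 1) ^ 2 := Nat.le_self_pow two_ne_zero _
  have h4 : J ^ 2 ≤ (J + 1) ^ 2 := Nat.pow_le_pow_left (by omega) 2
  generalize (J + 1) ^ 2 = s at *
  have hT : 2 ≤ 2 ^ s := Nat.le_self_pow (by omega) 2
  have base : ∀ x y c, x ≤ 2 ^ y → y ≤ s * c → x ≤ (2 ^ s) ^ c := fun x y c h h' =>
    h.trans (by rw [← pow_mul]; exact Nat.pow_le_pow_right two_pos h')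
  have hk' : (2 ^ s) ^ (I₀ + 12 * q + C₁ + c₁ + 8) ≤ 2 ^ k := by
    rw [← pow_mul]; exact Nat.pow_le_pow_right two_pos (by rwa [mul_comm])
  have b1 : 4 * J * q ≤ (2 ^ s) ^ (4 * q) := base _ _ _ Nat.lt_two_pow_self.le (by nlinarith)
  have b2 : 2 ^ (C₁ * J ^ 2) ≤ (2 ^ s) ^ C₁ := base _ _ _ le_rfl (by nlinarith)
  have b3 : ∀ c, c ≤ (2 ^ s) ^ c := fun c => base _ _ _ Nat.lt_two_pow_self.le (by nlinarith)
  have b4 : 2 ^ (l + 1) ≤ (2 ^ s) ^ 1 := base _ _ _ le_rfl (by omega)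
  have b5 : 2 ^ l + 1 ≤ (2 ^ s) ^ 1 := le_trans (by rw [pow_succ]; have := Nat.two_pow_pos l; omega) b4
  have b6 : 2 ^ l ≤ (2 ^ s) ^ 1 := le_trans (by omega) b5
  have b7 : q ^ (4 * (J + 1)) ≤ (2 ^ s) ^ (4 * q) := base _ (q * (4 * (J + 1))) _
    (by rw [pow_mul 2]; exact Nat.pow_le_pow_left Nat.lt_two_pow_self.le _) (by nlinarith)
  generalize 2 ^ s = T at *
  have mul : ∀ {x y a b}, x ≤ T ^ a → y ≤ T ^ b → x * y ≤ T ^ (a + b) := fun h h' => by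
    rw [pow_add]; exact Nat.mul_le_mul h h'
  have add : ∀ {x y a b}, x ≤ T ^ a → y ≤ T ^ b → x + y ≤ T ^ (a + b + 1) := fun {x y a b} h h' => by
    have e1 : T ^ a ≤ T ^ (a + b) := Nat.pow_le_pow_right (by omega) (by omega)
    have e2 : T ^ b ≤ T ^ (a + b) := Nat.pow_le_pow_right (by omega) (by omega)
    rw [pow_succ]; nlinarith
  refine (add (mul (add (add b1 b2) (mul b1 (add (b3 c₁) (mul b4 b5))))
    (mul (mul (b3 I₀) b6) b7)) (show 1 ≤ T ^ 0 from le_rfl)).trans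
    (le_trans (Nat.pow_le_pow_right (by omega) (by omega)) hk')

theorem t6_size {q J I₀ C₁ c₁ l d k : ℕ} {Ca : ℝ} (hd : 0 < d) (hCa : 0 ≤ Ca)
    (hc : Real.log (2 * d * (2 + Ca)) ≤ c₁) (hl : l ≤ J)
    (hk : (I₀ + 12 * q + C₁ + c₁ + 8) * (J + 1) ^ 2 ≤ k) :
    ((q : ℝ) ^ (4 * J) * Real.exp (2 ^ (C₁ * J ^ 2)) *
      ((2 + Ca) * (d * (Real.exp (2 ^ (l + 1)) ^ (2 ^ l + 1) + 1))) ^ (4 * J * q)) ^
        (I₀ * 2 ^ l * q ^ (4 * (J + 1))) + 1 ≤ Real.exp (2 ^ k) := by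
  have hd' : (1 : ℝ) ≤ d := by exact_mod_cast hd
  have h1 : (2 + Ca) * (d * (Real.exp (2 ^ (l + 1)) ^ (2 ^ l + 1) + 1)) ≤
      Real.exp ((c₁ + 2 ^ (l + 1) * (2 ^ l + 1) : ℕ) : ℝ) := by
    have h2 : 1 ≤ Real.exp (2 ^ (l + 1)) ^ (2 ^ l + 1) :=
      one_le_pow₀ (Real.one_le_exp (by positivity))
    have h3 : 2 * d * (2 + Ca) ≤ Real.exp c₁ := by
      rw [← Real.exp_log (show (0 : ℝ) < 2 * d * (2 + Ca) by positivity)]
      exact Real.exp_le_exp.2 hc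
    rw [Nat.cast_add, Real.exp_add, Nat.cast_mul, mul_comm ((2 ^ (l + 1) : ℕ) : ℝ),
      Real.exp_nat_mul]
    push_cast
    generalize Real.exp (2 ^ (l + 1)) ^ (2 ^ l + 1) = E at *
    calc _ ≤ (2 + Ca) * (d * (E + E)) := by gcongr
      _ = 2 * d * (2 + Ca) * E := by ring
      _ ≤ _ := by gcongr
  have h5 : (q : ℝ) ^ (4 * J) * Real.exp (2 ^ (C₁ * J ^ 2)) *
      ((2 + Ca) * (d * (Real.exp (2 ^ (l + 1)) ^ (2 ^ l + 1) + 1))) ^ (4 * J * q) ≤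
      Real.exp ((4 * J * q + 2 ^ (C₁ * J ^ 2) +
        4 * J * q * (c₁ + 2 ^ (l + 1) * (2 ^ l + 1)) : ℕ) : ℝ) := by
    rw [Nat.cast_add, Nat.cast_add, Real.exp_add, Real.exp_add, Nat.cast_mul (4 * J * q),
      Real.exp_nat_mul, Nat.cast_mul (4 * J), Real.exp_nat_mul]
    gcongr
    · linarith [Real.add_one_le_exp (q : ℝ)]
    · push_cast; exact le_rfl
  have h6 := (pow_le_pow_left₀ (by positivity) h5 (I₀ * 2 ^ l * q ^ (4 * (J + 1)))).trans_eq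
    (Real.exp_nat_mul _ _).symm
  rw [← Nat.cast_mul, Nat.mul_comm (I₀ * 2 ^ l * q ^ (4 * (J + 1)))] at h6
  have h7 := t6_nat hl hk
  generalize (4 * J * q + 2 ^ (C₁ * J ^ 2) + 4 * J * q * (c₁ + 2 ^ (l + 1) * (2 ^ l + 1))) *
      (I₀ * 2 ^ l * q ^ (4 * (J + 1))) = n at *
  have h8 : Real.exp (n + 1) ≤ Real.exp (2 ^ k) := Real.exp_le_exp.2 (by exact_mod_cast h7)
  have h9 : 1 ≤ Real.exp n := Real.one_le_exp (by positivity)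
  rw [Real.exp_add] at h8
  refine (add_le_add h6 le_rfl).trans ?_
  nlinarith [Real.add_one_le_exp (1 : ℝ)]

theorem eval_le (g : ℤ[X]) {l : ℕ} (h1 : g.natDegree ≤ 2 ^ l)
    (h2 : ∀ j, |(g.coeff j : ℝ)| ≤ Real.exp (2 ^ l)) {z : ℂ} (hz : ‖z‖ ≤ 1) :
    ‖g.eval₂ (Int.castRingHom ℂ) z‖ ≤ Real.exp (2 ^ (l + 1)) := by
  rw [eval₂_eq_sum_range' _ (Nat.lt_succ_of_le h1)]
  refine (norm_sum_le _ _).trans ((sum_le_card_nsmul _ _ (Real.exp (2 ^ l)) fun j _ => ?_).trans ?_)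
  · rw [norm_mul, norm_pow, eq_intCast, Complex.norm_intCast]
    exact (mul_le_of_le_one_right (abs_nonneg _) (pow_le_one₀ (norm_nonneg _) hz)).trans (h2 j)
  · rw [card_range, nsmul_eq_mul, pow_succ, mul_two, Real.exp_add]
    gcongr
    push_cast
    exact Real.add_one_le_exp _

end Pool.Agent.MP_09973c_nt.H53
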