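import Pool.Agent.MP_09973c_nt.H53.T6b
import Pool.Agent.MP_09973c_nt.H53.T6c
import Pool.Agent.MP_09973c_nt.H53.T6d
import Pool.Agent.MP_09973c_nt.H31.T4

/-!
The second step of the Runge type theorem.
-/

set_option autoImplicit false

namespace Pool.Agent.MP_09973c_nt.H53

open Polynomial Finset IntermediateField Classical Pool.Agent.MP_09973c_nt.H58

theorem swap_ne (R : ℤ[X][X]) (hR : R ≠ 0) {M h : ℝ} (hc : ∀ i j, |((R.coeff i).coeff j : ℝ)| ≤ M)
    {y : Qb} (hy : h ≤ lp y) (hh : 0 < h) (hM : M + 1 ≤ Real.exp h) :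
    (R.map (mapRingHom (Int.castRingHom Qb))).eval (C y) ≠ 0 := fun h0 => by
  obtain ⟨j, hj⟩ : ∃ j, R.leadingCoeff.coeff j ≠ 0 := ⟨_, leadingCoeff_ne_zero.2
    (leadingCoeff_ne_zero.2 hR)⟩
  let g : ℤ[X] := ∑ i ∈ range (R.natDegree + 1), monomial i ((R.coeff i).coeff j)
  have hg : ∀ i, g.coeff i = (R.coeff i).coeff j := fun i => by
    simp only [g, finsetSum_coeff, coeff_monomial, sum_ite_eq', mem_range]
    split_ifs with h
    · rfl
    · rw [coeff_eq_zero_of_natDegree_lt (p := R) (by omega), coeff_zero]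
  refine int_root g (fun h => hj (by rw [leadingCoeff, ← hg, h, coeff_zero]))
    (fun i => hg i ▸ hc i j) hy hh hM ?_
  have h1 := congrArg (fun f : Qb[X] => algebraMap Qb ℂ (f.coeff j)) h0
  rw [eval_map, eval₂_eq_sum_range] at h1
  simp only [← C_pow, finsetSum_coeff, coeff_mul_C] at h1
  simp only [map_sum, map_mul, map_pow, coeff_zero, map_zero,
    coe_mapRingHom, coeff_map, eq_intCast, map_intCast] at h1
  rw [← h1, eval₂_finsetSum]
  simp

theorem t2 (hF : FFStmt) (hM : MFwdStmt) (hR : RLStmt) (hE : Elim1Stmt) (hN : NoEdgeStmt)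
    (hL : LevStmt) : T2Stmt := by
  intro p q a b B hp hpq hc ha hb hab
  have hq : 0 < q := by omega
  obtain ⟨K, C', hK⟩ := quad_core hF hM hp hpq hc ha hb
  obtain ⟨C₁, hR⟩ := hR p q a b B hp hpq
  obtain ⟨C₂, hN⟩ := hN p q a b hp hpq hc ha hb hab
  obtain ⟨C₃, hL⟩ := hL p q a b hp hpq
  obtain ⟨d, hd, Ca, hCa, hS⟩ := exists_Sz_finset {a, b}
  have sa := hS a (by simp)
  obtain ⟨I₀, hE⟩ := elim_one hE hpq hd sa (hS b (by simp))
  obtain ⟨c₁, hc₁⟩ := exists_nat_ge (Real.log (2 * d * (2 + Ca)))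
  obtain ⟨c₂, hc₂⟩ := exists_nat_ge (|C₂| + |C₃| + Real.log (1 + Ca))
  obtain ⟨C, hC⟩ := t6_params (K + 1) C' C₁ (I₀ + 12 * q + C₁ + c₁ + 8 + c₂)
  refine ⟨C, fun L l k h x x' σ hX ⟨R, r0, r1, r2, r3, r4⟩ hk hh => ?_⟩
  obtain ⟨X, hXd⟩ : ∃ X : Fin 4 → ℕ → Qb,
    X = ![x, x', fun i => σ (x i), fun i => σ (x' i)] := ⟨_, rfl⟩
  rw [← hXd] at hX
  have x0 : X 0 = x := by rw [hXd]; rfl
  have x1 : X 1 = x' := by rw [hXd]; rfl
  have x2 : X 2 = fun i => σ (x i) := by rw [hXd]; rfl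
  have x3 : X 3 = fun i => σ (x' i) := by rw [hXd]; rfl
  obtain ⟨ℓ, J, hℓ, h1, hJ, h2⟩ := hC (L + l)
  have h3 : J + 1 ≤ (J + 1) ^ 2 := Nat.le_self_pow two_ne_zero _
  have h4 : J ^ 2 ≤ (J + 1) ^ 2 := Nat.pow_le_pow_left (by omega) 2
  have hJk : (q + 1 + c₂) * (J + 1) ≤ k :=
    (Nat.mul_le_mul (by omega) h3).trans (h2.trans hk)
  have hJk' : J + 1 ≤ k := by nlinarith
  obtain ⟨J₀, hJ₀⟩ : ∃ J₀, J₀ = (K + 1) * (ℓ + 1) ^ 3 := ⟨_, rfl⟩
  rw [← hJ₀] at hJ
  have hlJ : ℓ + 1 ≤ J₀ := by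
    have := Nat.le_self_pow (n := 3) (by norm_num) (ℓ + 1)
    nlinarith
  have hJJ : 6 * J₀ + C₁ * (L + 1) ≤ J := by
    have := Nat.mul_le_mul_left C₁ (show L + 1 ≤ L + l + 1 by omega)
    omega
  obtain ⟨rel4, rel3⟩ := hR L k J₀ J h X hX (by omega) hJJ
    (le_trans (pow_le_pow_right₀ one_le_two
      ((Nat.mul_le_mul (by omega) h4).trans (h2.trans hk))) hh)
  have ch : ∀ m, Fwd p q (![a, b, a, b] m) J (X m) := fun m i hi => hX.ch m i (by omega)
  have hlog := log_one_add_nonneg (zero_le_one.trans hCa)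
  have n0 := hN J _ _ (ch 0) (ch 1) hX.b1
    (t5_low (by omega) hpq sa.norm_le (ch 0) hX.big0 hh (by linarith [abs_nonneg C₃]) hJk)
  have n2 := hN J _ _ (ch 2) (ch 3) hX.b3
    (t5_low (by omega) hpq sa.norm_le (ch 2) hX.big2 hh (by linarith [abs_nonneg C₃]) hJk)
  have lev := hL J _ _ (ch 0) (ch 1) hX.b1 (le_trans (by
      have : (0 : ℝ) ≤ J := by positivity
      nlinarith [le_abs_self C₃, abs_nonneg C₃])
    (t5_low (C := |C₃|) (by omega) hpq sa.norm_le (ch 0) hX.big0 hh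
      (by rw [abs_abs]; linarith [abs_nonneg C₂]) hJk))
  have hh0 : 0 < h := lt_of_lt_of_le (by positivity) hh
  have hbig : Real.exp (2 ^ l) + 1 ≤ Real.exp h := by
    have e1 : (2 : ℝ) ^ (l + 1) ≤ h := (pow_le_pow_right₀ one_le_two (by omega)).trans hh
    have e2 : (1 : ℝ) ≤ 2 ^ l := one_le_pow₀ one_le_two
    refine le_trans ?_ (Real.exp_le_exp.2 e1)
    rw [pow_succ, mul_two, Real.exp_add]
    nlinarith [Real.add_one_le_exp ((2 : ℝ) ^ l)]
  have hinj : Function.Injective (mapRingHom (Int.castRingHom Qb)) :=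
    map_injective _ Int.cast_injective
  have hev : ∀ (F : Type) [Field F] (ι : Qb →+* F) (u v : F),
      ev2 ι (R.map (mapRingHom (Int.castRingHom Qb))) u v = ev2 (Int.castRingHom F) R u v :=
    fun F _ ι u v => by
      rw [ev2, eval₂_map, ev2]
      congr 1
      exact ringHom_ext' (RingHom.ext_int _ _) (by simp)
  obtain ⟨Ω, _, _, _, _, u, v, hu, hv, halg, hR0, hsp⟩ := exists_curve
    (R.map (mapRingHom (Int.castRingHom Qb))) (X 0 0) (X 2 0) (by rw [hev, x0, x2]; exact r4)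
    ⟨R.natDegree, fun h0 => int_root _ (leadingCoeff_ne_zero.2 r0) (r3 _) hX.big0 hh0 hbig (by
      have := congrArg (algebraMap Qb ℂ) h0
      rw [coeff_map, coe_mapRingHom, eval_map, hom_eval₂, map_zero,
        RingHom.ext_int (RingHom.comp _ _) (Int.castRingHom ℂ)] at this
      exact this)⟩ (swap_ne R r0 r3 hX.big2 hh0 hbig)
  let u' : IntO {u, v} := ⟨u, subset_IntO _ (by simp)⟩
  let v' : IntO {u, v} := ⟨v, subset_IntO _ (by simp)⟩
  obtain ⟨φ, φu, φv, hφ⟩ := exists_spec hsp u' v' rfl rfl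
  obtain ⟨κ, hκ, e1⟩ := exists_mul_of_pow_eq hq hX.b1
  obtain ⟨κ', hκ', e3⟩ := exists_mul_of_pow_eq hq hX.b3
  have : ∀ m, ∃ w : ℕ → IntO {u, v}, w 0 = cO _ (![1, κ, 1, κ'] m) * ![u', u', v', v'] m ∧
      Fwd p q (cO _ (![a, b, a, b] m)) J w ∧ ∀ i ≤ J, φ (w i) = X m i := fun m =>
    lift_fwd φ hφ hq (ch m) _ (by fin_cases m <;> simp [hφ, φu, φv, e1, e3])
  choose W w0 hW φW using this
  let V : Fin 4 → ℕ → Ω := fun m i => W m i
  have hV : ∀ m, Fwd p q (algebraMap Qb Ω (![a, b, a, b] m)) J (V m) := fun m =>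
    (hW m).map (IntO {u, v}).subtype
  have hκ0 : ∀ {z : Qb}, z ^ q = 1 → z ≠ 0 := fun h h0 => by simp [h0, hq.ne'] at h
  have hpow : 2 ^ l ≤ 2 ^ ℓ := Nat.pow_le_pow_right two_pos (by omega)
  obtain ⟨E, t, ht, hEd, hI⟩ := hK Ω u v _ ℓ J₀ J ![1, κ, 1, κ'] V hu hv halg
    ((Polynomial.map_ne_zero_iff hinj).2 r0) (natDegree_map_le.trans (r1.trans hpow))
    (fun i => by rw [coeff_map]; exact natDegree_map_le.trans ((r2 i).trans hpow)) hR0 h1
    (by rw [hJ₀]; gcongr; omega) (by omega)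
    (fun m => by fin_cases m <;> simp [hκ0 hκ, hκ0 hκ'])
    (fun m => by fin_cases m <;> simp [V, w0, u', v']) hV
  have hc0 : ∀ m, ![a, b, a, b] m ≠ 0 := fun m => by fin_cases m <;> assumption
  let Lk : Fin 4 → Fin 4 → Prop := fun m m' => ∃ μ : Qb, μ ^ p * ![a, b, a, b] m = ![a, b, a, b] m' ∧
    μ ^ q * ![a, b, a, b] m = ![a, b, a, b] m' ∧ X m' t = μ * X m t
  have hsym : ∀ m m', Lk m m' → Lk m' m := fun m m' ⟨μ, h1, h2, h3⟩ => by
    have h0 : μ ≠ 0 := fun h0 => hc0 m' (by rw [← h2, h0, zero_pow hq.ne', zero_mul])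
    exact ⟨μ⁻¹, by rw [← h1, inv_pow, inv_mul_cancel_left₀ (pow_ne_zero _ h0)],
      by rw [← h2, inv_pow, inv_mul_cancel_left₀ (pow_ne_zero _ h0)],
      by rw [h3, inv_mul_cancel_left₀ h0]⟩
  have hEL : ∀ m m', E m m' → Lk m m' := fun m m' he => by
    obtain ⟨j, hj, μ, h1, h2, h3⟩ := hEd m m' he
    have h4 : W m' j = cO _ μ * W m t := Subtype.ext h3
    have h5 : X m' j = μ * X m t := by
      rw [← φW m' j (by omega), h4, map_mul, hφ, φW m t (by omega)]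
    have hz : ∀ m, ∃ (z : ℕ → Qb) (τ : Gal), (z = X 0 ∨ z = X 1) ∧ ∀ i, X m i = τ (z i) :=
      fun m => by
        fin_cases m
        exacts [⟨_, 1, Or.inl rfl, fun _ => rfl⟩, ⟨_, 1, Or.inr rfl, fun _ => rfl⟩,
          ⟨_, σ, Or.inl x0.symm, congrFun x2⟩, ⟨_, σ, Or.inr x1.symm, congrFun x3⟩]
    obtain ⟨z, τ, hz1, hz2⟩ := hz m
    obtain ⟨z', τ', hz3, hz4⟩ := hz m'
    obtain rfl : j = t := lev z' z hz3 hz1 τ' τ μ (q - p) (by omega)
      (H31.pow_sub_eq_one hpq (hc0 m') (by omega) h2 h1) j (by omega) t (by omega)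
      (by rw [← hz2, ← hz4, h5])
    exact ⟨μ, h2, h1, h5⟩
  have l01 : ¬ Lk 0 1 := fun ⟨μ, h1, h2, h3⟩ => (n0 t (by omega) t (by omega) μ).1 h1 h2 h3
  have l23 : ¬ Lk 2 3 := fun ⟨μ, h1, h2, h3⟩ => (n2 t (by omega) t (by omega) μ).1 h1 h2 h3
  have fin : ∀ (n : ℕ) (A : Fin n → Fin 4), n ≤ 4 → Function.Injective A →
      (∀ i i', i < i' → ¬ Lk (A i) (A i')) →
      ¬ Rel q J₀ J (fun i => X (A i)) (2 ^ (C₁ * J ^ 2)) := by
    rintro n A hn hA hno ⟨c, hc0, hcb, hrel⟩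
    obtain ⟨R₁, s0, s1, s2⟩ := hE Ω u v u' rfl (hu.of_tower_top ℚ) (alg_rat halg) R (2 ^ l)
      (Real.exp (2 ^ (l + 1))) r0 r1 (Real.one_le_exp (by positivity))
      (fun i z hz => eval_le _ (r2 i) (r3 i) hz) (by rw [← hev Ω (algebraMap Qb Ω)]; exact hR0)
      J₀ J W (fun m => by
        rw [w0]
        fin_cases m <;> simp [u', v', mul_pow, ← map_pow, hκ, hκ']) hW n A hn c _ (by positivity)
      hcb (fun h0 => hc0 (hI n A hA (fun i i' hi he => by
        rcases lt_or_gt_of_ne hi with h | h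
        exacts [hno i i' h (hEL _ _ he), hno i' i h (hsym _ _ (hEL _ _ he))]) c (by
        simpa [mon, V] using congrArg (IntO {u, v}).subtype h0)))
    have h5 := s2 ((algebraMap Qb ℂ).comp φ) (by
      rw [RingHom.comp_apply, map_eq_zero, map_sum, ← hrel]
      refine sum_congr rfl fun e _ => ?_
      rw [map_mul, map_intCast, mon_map, mon, mon]
      congr 1
      exact prod_congr rfl fun z _ => by rw [φW _ _ (by have := z.2.2; omega)])
    rw [RingHom.comp_apply, φu] at h5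
    exact int_root R₁ s0 s1 hX.big0 hh0 ((t6_size hd (by linarith) hc₁ (by omega)
      ((Nat.mul_le_mul_right _ (by omega)).trans (h2.trans hk))).trans (Real.exp_le_exp.2 hh)) h5
  refine ⟨t, by omega, ?_⟩
  by_cases l02 : Lk 0 2
  · obtain ⟨μ, h1, h2, h3⟩ := l02
    have h4 : μ = 1 := eq_one_of_coprime hc (mul_right_cancel₀ ha (h1.trans (one_mul a).symm))
      (mul_right_cancel₀ ha (h2.trans (one_mul a).symm))
    rw [h4, one_mul, x0, x2] at h3
    exact Or.inl h3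
  by_cases l12 : Lk 1 2 ∧ Lk 0 3
  · obtain ⟨μ, h1, h2, h3⟩ := l12.1
    obtain ⟨ν, h4, h5, h6⟩ := hsym _ _ l12.2
    have h0 : ν ≠ 0 := fun h0 => ha (by
      rw [h0, zero_pow hq.ne', zero_mul] at h5; exact h5.symm)
    have h7 : μ = ν := by
      rw [← div_eq_one_iff_eq h0]
      refine eq_one_of_coprime hc ?_ ?_ <;> rw [div_pow, div_eq_one_iff_eq (pow_ne_zero _ h0)]
      exacts [mul_right_cancel₀ hb (h1.trans h4.symm), mul_right_cancel₀ hb (h2.trans h5.symm)]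
    rw [x1, x2] at h3
    rw [x0, x3, ← h7] at h6
    exact Or.inr ⟨μ, h1, h2, h3, h6.symm⟩
  exfalso
  by_cases hx : ∃ m m', (m = 0 ∨ m = 1) ∧ (m' = 2 ∨ m' = 3) ∧ Lk m m'
  · obtain ⟨m, m', hm, hm', μ, h1, h2, h3⟩ := hx
    have rel := rel3 m m' t μ hm hm' ht (H31.pow_sub_eq_one hpq (hc0 m') (by omega) h1 h2) h3
    rcases not_and_or.1 l12 with l | l
    · refine fin 3 ![0, 1, 2] (by norm_num) (by decide) (fun i i' hi => ?_) (rel _)
      fin_cases i <;> fin_cases i' <;> first | exact absurd hi (by decide) | assumption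
    · refine fin 3 ![0, 2, 3] (by norm_num) (by decide) (fun i i' hi => ?_) (rel _)
      fin_cases i <;> fin_cases i' <;> first | exact absurd hi (by decide) | assumption
  · refine fin 4 id le_rfl Function.injective_id (fun i i' hi => ?_) rel4
    fin_cases i <;> fin_cases i' <;> first
      | exact absurd hi (by decide) | assumption
      | exact fun h => hx ⟨_, _, by decide, by decide, h⟩

end Pool.Agent.MP_09973c_nt.H53
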