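import Pool.Agent.MP_09973c_nt.H58.T5

/-!
A generic point of a plane curve through a given point, and specialization.
-/

set_option autoImplicit false

namespace Pool.Agent.MP_09973c_nt.H53

open Polynomial Finset IntermediateField Classical Pool.Agent.MP_09973c_nt.H58

theorem root_lt (f : ℂ[X]) (hf : f ≠ 0) (hl : 1 ≤ ‖f.leadingCoeff‖) {M : ℝ} (hM : 0 ≤ M)
    (h : ∀ i, ‖f.coeff i‖ ≤ M) {z : ℂ} (hz : f.eval z = 0) : ‖z‖ < M + 1 := by
  have h1 := IsRoot.norm_lt_cauchyBound hf hz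
  have h2 : cauchyBound f ≤ ⟨M, hM⟩ + 1 := by
    unfold cauchyBound
    refine add_le_add ?_ le_rfl
    have h3 : (1 : NNReal) ≤ ‖f.leadingCoeff‖₊ := hl
    exact (div_le_self zero_le h3).trans (Finset.sup_le fun i _ => h i)
  exact_mod_cast h1.trans_le h2

theorem int_root (f : ℤ[X]) (hf : f ≠ 0) {M h : ℝ} (hc : ∀ i, |(f.coeff i : ℝ)| ≤ M)
    {x : Qb} (hx : h ≤ lp x) (hh : 0 < h) (hM : M + 1 ≤ Real.exp h) :
    f.eval₂ (Int.castRingHom ℂ) x ≠ 0 := fun h0 => by
  have hi : Function.Injective (Int.castRingHom ℂ) := Int.cast_injective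
  have h1 := root_lt (f.map (Int.castRingHom ℂ)) ((Polynomial.map_ne_zero_iff hi).2 hf) (by
      rw [leadingCoeff_map_of_injective hi, eq_intCast, Complex.norm_intCast]
      exact_mod_cast Int.one_le_abs (leadingCoeff_ne_zero.2 hf))
    ((abs_nonneg _).trans (hc 0)) (fun i => by
      rw [coeff_map, eq_intCast, Complex.norm_intCast]; exact hc i)
    (z := x) (by rw [eval_map]; exact h0)
  have h2 := norm_eq_exp_lp (hh.trans_le hx)
  have h3 := Real.exp_le_exp.2 hx
  have h4 : ‖(x : ℂ)‖ = ‖x‖ := rfl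
  linarith

theorem exists_curve (R : Qb[X][X]) (x y : Qb) (h0 : ev2 (RingHom.id Qb) R x y = 0)
    (hx : ∃ i, (R.coeff i).eval x ≠ 0) (hy : R.eval (C y) ≠ 0) :
    ∃ (Ω : Type) (_ : Field Ω) (_ : IsAlgClosed Ω) (_ : CharZero Ω) (_ : Algebra Qb Ω) (u v : Ω),
      Transcendental Qb u ∧ Transcendental Qb v ∧ Algebra.IsAlgebraic (adjoin Qb {u}) Ω ∧
      ev2 (algebraMap Qb Ω) R u v = 0 ∧
      ∀ G, ev2 (algebraMap Qb Ω) G u v = 0 → ev2 (RingHom.id Qb) G x y = 0 := by
  have hR : R ≠ 0 := fun h => hy (by simp [h])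
  let ev : Qb[X][X] →+* Qb := eval₂RingHom (eval₂RingHom (RingHom.id Qb) x) y
  have hev : ∀ G, ev G = ev2 (RingHom.id Qb) G x y := fun _ => rfl
  obtain ⟨P, hP, hPR, hP0⟩ : ∃ P : Qb[X][X], Prime P ∧ P ∣ R ∧ ev P = 0 := by
    obtain ⟨w, hw⟩ := UniqueFactorizationMonoid.factors_prod hR
    have h1 : ev (UniqueFactorizationMonoid.factors R).prod = 0 := by
      have h2 := congrArg ev hw
      rw [map_mul, hev R, h0] at h2
      exact (mul_eq_zero.1 h2).resolve_right (w.isUnit.map ev).ne_zero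
    rw [map_multiset_prod, Multiset.prod_eq_zero_iff, Multiset.mem_map] at h1
    obtain ⟨P, h2, h3⟩ := h1
    exact ⟨P, UniqueFactorizationMonoid.prime_of_factor P h2,
      UniqueFactorizationMonoid.dvd_of_mem_factors h2, h3⟩
  obtain ⟨A, _, _, π₀, hsurj, hk₀⟩ : ∃ (A : Type) (_ : CommRing A) (_ : IsDomain A)
      (π₀ : Qb[X][X] →+* A), Function.Surjective π₀ ∧ ∀ G, π₀ G = 0 ↔ P ∣ G := by
    have : (Ideal.span {P}).IsPrime := (Ideal.span_singleton_prime hP.ne_zero).2 hP
    exact ⟨Qb[X][X] ⧸ Ideal.span {P}, inferInstance, Ideal.Quotient.isDomain _,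
      Ideal.Quotient.mk _, Ideal.Quotient.mk_surjective, fun G => by
        rw [← Ideal.mem_span_singleton, Ideal.Quotient.eq_zero_iff_mem]⟩
  let Ω : Type := AlgebraicClosure (FractionRing A)
  have hinj : Function.Injective (algebraMap A Ω) := by
    rw [IsScalarTower.algebraMap_eq A (FractionRing A) Ω]
    exact (algebraMap (FractionRing A) Ω).injective.comp (IsFractionRing.injective A _)
  let π : Qb[X][X] →+* Ω := (algebraMap A Ω).comp π₀
  let : Algebra Qb Ω := (π.comp (C.comp C)).toAlgebra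
  have : CharZero Ω := charZero_of_injective_algebraMap (algebraMap Qb Ω).injective
  have hπ : ∀ G, ev2 (algebraMap Qb Ω) G (π (C X)) (π X) = π G := fun G => by
    have : eval₂RingHom (eval₂RingHom (algebraMap Qb Ω) (π (C X))) (π X) = π := by
      refine ringHom_ext' (ringHom_ext' (RingHom.ext fun c => ?_) (by simp)) (by simp)
      simp only [RingHom.comp_apply, coe_eval₂RingHom, eval₂_C]
      rfl
    exact congrArg (fun f : Qb[X][X] →+* Ω => f G) this
  have hker : ∀ G, π G = 0 ↔ P ∣ G := fun G => (map_eq_zero_iff _ hinj).trans (hk₀ G)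
  have hc : ∀ c : Qb, π (C (C c)) = algebraMap Qb Ω c := fun c => by
    rw [← hπ]; simp [ev2]
  have hconst : ∀ z : Ω, IsAlgebraic Qb z → ∃ c, algebraMap Qb Ω c = z := fun z hz =>
    minpoly.mem_range_of_degree_eq_one Qb z
      (IsAlgClosed.degree_eq_one_of_irreducible Qb (minpoly.irreducible hz.isIntegral))
  have hdvd : ∀ Q : Qb[X][X], Prime Q → π Q = 0 → ev Q = 0 ∧ Q ∣ R := fun Q hQ h => by
    have h1 := (hker Q).1 h
    exact ⟨by obtain ⟨G, rfl⟩ := h1; rw [map_mul, hP0, zero_mul],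
      (hP.associated_of_dvd hQ h1).symm.dvd.trans hPR⟩
  have hu : Transcendental Qb (π (C X)) := fun h => by
    obtain ⟨c, hc'⟩ := hconst _ h
    obtain ⟨h1, h2⟩ := hdvd (C (X - C c)) (prime_C_iff.2 (prime_X_sub_C c))
      (by rw [map_sub, map_sub, hc, hc', sub_self])
    obtain ⟨i, hi⟩ := hx
    have h3 : x = c := by simpa [ev, sub_eq_zero] using h1
    exact hi (dvd_iff_isRoot.1 (h3 ▸ (C_dvd_iff_dvd_coeff _ _).1 h2 i))
  have hv : Transcendental Qb (π X) := fun h => by
    obtain ⟨c, hc'⟩ := hconst _ h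
    obtain ⟨h1, h2⟩ := hdvd (X - C (C c)) (prime_X_sub_C _)
      (by rw [map_sub, hc, hc', sub_self])
    have h3 : y = c := by simpa [ev, sub_eq_zero] using h1
    exact hy (dvd_iff_isRoot.1 (h3 ▸ h2))
  have hRz : ev2 (algebraMap Qb Ω) R (π (C X)) (π X) = 0 := by rw [hπ, hker]; exact hPR
  refine ⟨Ω, inferInstance, inferInstance, inferInstance, inferInstance, π (C X), π X, hu, hv,
    ⟨fun z => ?_⟩, hRz, fun G hG => ?_⟩
  · have h1 : IsAlgebraic A z :=
      (IsFractionRing.isAlgebraic_iff A (FractionRing A) Ω).2 (Algebra.IsAlgebraic.isAlgebraic z)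
    have hva : IsAlgebraic (adjoin Qb {π (C X)}) (π X) := by
      by_contra h
      exact hR (ev2_inj hu h R hRz)
    have h2 : ∀ f : A, algebraMap A Ω f ∈ algebraicClosure (adjoin Qb {π (C X)}) Ω := fun f => by
      obtain ⟨G, rfl⟩ := hsurj f
      change π G ∈ _
      induction G using Polynomial.induction_on with
      | C g =>
        refine mem_algebraicClosure_iff.2 ?_
        have : π (C g) = aeval (π (C X)) g := by rw [← hπ]; simp [ev2, aeval_def]
        rw [this]
        exact isAlgebraic_algebraMap (⟨_, algebra_adjoin_le_adjoin Qb _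
          (aeval_mem_adjoin_singleton Qb _)⟩ : adjoin Qb {π (C X)})
      | add f g hf hg => rw [map_add]; exact add_mem hf hg
      | monomial n g hf =>
        rw [pow_succ, ← mul_assoc, map_mul]
        exact mul_mem hf (mem_algebraicClosure_iff.2 hva)
    have h3 : IsAlgebraic (algebraicClosure (adjoin Qb {π (C X)}) Ω) z :=
      h1.ringHom_of_comp_eq ((algebraMap A Ω).codRestrict _ h2) (RingHom.id Ω)
        (fun a b hab => hinj (congrArg Subtype.val hab)) rfl
    exact h3.restrictScalars _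
  · rw [hπ, hker] at hG
    obtain ⟨G', rfl⟩ := hG
    rw [← hev, map_mul, hP0, zero_mul]

theorem exists_spec {Ω : Type} [Field Ω] [CharZero Ω] [Algebra Qb Ω] {u v : Ω} {x y : Qb}
    (h : ∀ G : Qb[X][X], ev2 (algebraMap Qb Ω) G u v = 0 → ev2 (RingHom.id Qb) G x y = 0)
    (u' v' : IntO {u, v}) (hu : (u' : Ω) = u) (hv : (v' : Ω) = v) :
    ∃ φ : IntO {u, v} →+* Qb, φ u' = x ∧ φ v' = y ∧ ∀ c, φ (cO _ c) = c := by
  let f : Qb[X][X] →+* IntO {u, v} := eval₂RingHom (eval₂RingHom (cO _) u') v'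
  have hf : ∀ R, (f R : Ω) = ev2 (algebraMap Qb Ω) R u v := fun R => by
    have := H31.ev2_map (cO {u, v}) (IntO {u, v}).subtype R u' v'
    rw [Subring.coe_subtype, hu, hv] at this; exact this
  let := f.toAlgebra
  let := ((IntO {u, v}).subtype.comp f).toAlgebra
  have : IsScalarTower Qb[X][X] (IntO {u, v}) Ω := IsScalarTower.of_algebraMap_eq fun _ => rfl
  have : Algebra.IsIntegral Qb[X][X] (IntO {u, v}) := ⟨fun z => by
    rw [← isIntegral_algebraMap_iff (B := Ω) Subtype.val_injective]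
    have h1 : ∀ y ∈ Algebra.adjoin ℚ {u, v}, y ∈ (algebraMap Qb[X][X] Ω).range := fun y hy => by
      induction hy using Algebra.adjoin_induction with
      | mem y hy =>
        rcases hy with rfl | rfl
        · exact ⟨C X, (hf _).trans (by simp [ev2])⟩
        · exact ⟨X, (hf _).trans (by simp [ev2])⟩
      | algebraMap r => exact ⟨C (C (r : Qb)), (hf _).trans (by simp [ev2])⟩
      | add _ _ _ _ h1 h2 => exact add_mem h1 h2
      | mul _ _ _ _ h1 h2 => exact mul_mem h1 h2
    obtain ⟨g, hg, h0⟩ := z.2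
    obtain ⟨g', h2, -, h3⟩ := lifts_and_natDegree_eq_and_monic (f := algebraMap Qb[X][X] Ω)
      (p := g.map (algebraMap _ Ω))
      ((lifts_iff_coeff_lifts _).2 fun n => by rw [coeff_map]; exact h1 _ (g.coeff n).2) (hg.map _)
    exact ⟨g', h3, by rw [eval₂_eq_eval_map, h2, ← eval₂_eq_eval_map]; exact h0⟩⟩
  obtain ⟨φ, hφ⟩ := H31.ext_hom' (A := Qb[X][X]) (B := IntO {u, v})
    (eval₂RingHom (eval₂RingHom (RingHom.id Qb) x) y) fun R hR =>
      h R ((hf R).symm.trans (congrArg Subtype.val hR))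
  refine ⟨φ, ?_, ?_, fun c => ?_⟩
  · simpa [RingHom.algebraMap_toAlgebra, f] using hφ (C X)
  · simpa [RingHom.algebraMap_toAlgebra, f] using hφ X
  · simpa [RingHom.algebraMap_toAlgebra, f] using hφ (C (C c))

end Pool.Agent.MP_09973c_nt.H53
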