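import Pool.Agent.MP_09973c_nt.H58.T5

/-!
Independence of four towers over a curve.
-/

set_option autoImplicit false

namespace Pool.Agent.MP_09973c_nt.H53

open Polynomial Finset IntermediateField Classical Pool.Agent.MP_09973c_nt.H58

theorem quad_core (hF : FFStmt) (hM : MFwdStmt) {p q : ℕ} (hp : 2 ≤ p)
    (hpq : p < q) (hc : p.Coprime q) {a b : Qb} (ha : a ≠ 0) (hb : b ≠ 0) : ∃ K C' : ℕ,
    ∀ (Ω : Type) [Field Ω] [IsAlgClosed Ω] [CharZero Ω] [Algebra Qb Ω] (u v : Ω) (R : Qb[X][X])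
      (l J₀ J : ℕ) (κ : Fin 4 → Qb) (W : Fin 4 → ℕ → Ω), Transcendental Qb u →
      Transcendental Qb v → Algebra.IsAlgebraic (adjoin Qb {u}) Ω → R ≠ 0 →
      R.natDegree ≤ 2 ^ l → (∀ i, (R.coeff i).natDegree ≤ 2 ^ l) →
      ev2 (algebraMap Qb Ω) R u v = 0 → (J + 2) ^ C' ≤ 2 ^ l →
      K * (l + 1) ^ 3 ≤ J₀ → J₀ ≤ J → (∀ m, κ m ≠ 0) →
      (∀ m, W m 0 = algebraMap Qb Ω (κ m) * ![u, u, v, v] m) →
      (∀ m, Fwd p q (algebraMap Qb Ω (![a, b, a, b] m)) J (W m)) →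
      ∃ (E : Fin 4 → Fin 4 → Prop) (t : ℕ), t ≤ J₀ ∧
        (∀ m m', E m m' → ∃ j ≤ J₀, ∃ μ : Qb, μ ^ q * ![a, b, a, b] m = ![a, b, a, b] m' ∧
          μ ^ p * ![a, b, a, b] m = ![a, b, a, b] m' ∧ W m' j = algebraMap Qb Ω μ * W m t) ∧
        ∀ (n : ℕ) (A : Fin n → Fin 4), Function.Injective A →
          (∀ i i', i ≠ i' → ¬ E (A i) (A i')) → ∀ c : (Fin n × Fin (J - J₀) → Fin q) → ℤ,
          ∑ e, (c e : Ω) * mon (fun i => W (A i)) e = 0 → c = 0 := by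
  obtain ⟨C₁, ρ₁, e₁, h1, h2, h3, hA⟩ := hM p q a hp hpq hc ha
  obtain ⟨C₂, ρ₂, e₂, h4, h5, h6, hB⟩ := hM p q b hp hpq hc hb
  obtain ⟨K, hK⟩ := hF q p (max C₁ C₂) (max ρ₁ ρ₂) (by omega) hp hc.symm (le_max_of_le_left h1)
    (lt_max_of_lt_left h2) (max_lt h3 h6)
  refine ⟨K, max e₁ e₂, ?_⟩
  intro Ω _ _ _ _ u v R l J₀ J κ W hu hv halg hR d1 d2 hR0 hP hJ₀ hJ hκ h0 hW
  let T : Fin 4 → Tw Qb q p J {u, v} := fun m =>
    ⟨![a, b, a, b] m, κ m, ![u, u, v, v] m, W m, by fin_cases m <;> assumption, hκ m,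
      by fin_cases m <;> simp, h0 m, fun i hi => (hW m i hi).symm⟩
  have mA := (hA J).mono (by linarith) h2.le (le_max_left _ C₂)
    (le_max_left _ ρ₂) (Nat.pow_le_pow_right (by omega) (le_max_left _ e₂)) le_rfl
  have mB := (hB J).mono (by linarith) h5.le (le_max_right C₁ _)
    (le_max_right ρ₁ _) (Nat.pow_le_pow_right (by omega) (le_max_right e₁ _)) le_rfl
  obtain ⟨E, t, -, ht, hE, hI⟩ := hK Qb Ω u v R l 0 J₀ J ((J + 2) ^ max e₁ e₂)
    hu hv halg hR d1 d2 hR0 hP (by omega) hJ (Fin 4) T (by simp) (fun m => by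
      fin_cases m
      exacts [mA, mB, mA, mB])
  refine ⟨E, t, ht, fun m m' h => ?_, fun n A hA hno c hc => ?_⟩
  · obtain ⟨j, -, hj, μ, h⟩ := hE m m' h
    exact ⟨j, hj, μ, h⟩
  have hl := monInd (k := Qb) ({u, v} : Set Ω)
    (fun z : Fin n × Fin (J - J₀) => W (A z.1) (J₀ + z.2 + 1))
    (fun z => (finProdFinEquiv z : ℕ))
    (Fin.val_injective.comp finProdFinEquiv.injective) q (by
      rintro ⟨m, i⟩
      have hi := i.2
      refine PowInd.mono ?_ (hI (Set.range A) (by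
        rintro _ ⟨i, rfl⟩ _ ⟨i', rfl⟩ h
        exact hno i i' fun h' => h (h' ▸ rfl)) (A m) ⟨m, rfl⟩ (J₀ + i) (by omega) (by omega))
      rintro _ (hx | ⟨⟨m', i'⟩, hy, rfl⟩)
      · exact subset_adjoin _ _ (Or.inl (Or.inl hx))
      have := i'.2
      refine subset_adjoin _ _ ?_
      by_cases h : m' = m
      · subst h
        simp only [Set.mem_ofPred_eq, finProdFinEquiv_apply_val] at hy
        exact Or.inl (Or.inr (H65.mem_lv _ (show J₀ + i' + 1 ≤ J₀ + i by omega)))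
      · exact Or.inr (Set.mem_biUnion (x := A m') ⟨⟨m', rfl⟩, fun h' => h (hA h')⟩
          (H65.mem_lv _ (show J₀ + i' + 1 ≤ J by omega))))
  funext e
  have := Fintype.linearIndependent_iff.1 hl (fun e => (c e : adjoin Qb ({u, v} : Set Ω)))
    (by simpa [IntermediateField.smul_def, mon] using hc) e
  exact_mod_cast this

end Pool.Agent.MP_09973c_nt.H53
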